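import Pool.Agent.H61.GLA.MSk
import Pool.Agent.H23.LC.Targets

/-!
# (PW): products of theta functions of two unimodular lattices
-/

set_option autoImplicit false

open MeasureTheory Set Filter Module
open scoped Matrix RealInnerProductSpace ENNReal

namespace Pool.Agent.H59.LC

open Pool.Agent.H25.HK Pool.Agent.H23.LB Pool.Agent.H61.MV Pool.Agent.H61.GLA
  Pool.Agent.H23.LC

variable {ι : Type} [Fintype ι] [DecidableEq ι]

lemma Fs_anti (P : Matrix ι ι ℝ) (hP : P.PosDef) (hd : P.det = 1) {T T' : ℝ} (hT : 0 < T)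
    (h : T ≤ T') : Fs P T' ≤ Fs P T := by
  obtain ⟨A, hA0, _, rfl⟩ := root P hP hd
  rw [Fs_eq, Fs_eq]
  exact Th_anti A hA0 (Real.rpow_pos_of_pos hT _)
    (Real.rpow_le_rpow hT.le h (by positivity))

lemma one_le_Fs (P : Matrix ι ι ℝ) (hP : P.PosDef) (hd : P.det = 1) {T : ℝ} (hT : 0 < T) :
    1 ≤ Fs P T := by
  obtain ⟨A, hA0, _, rfl⟩ := root P hP hd
  rw [Fs_eq]
  exact one_le_Th A hA0 _ (Real.rpow_pos_of_pos hT _)

lemma Fs_fe [Nonempty ι] (P : Matrix ι ι ℝ) (hP : P.PosDef) (hd : P.det = 1) {T : ℝ}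
    (hT : 0 < T) : Fs P T = T⁻¹ * Fs P⁻¹ (1 / T) := by
  obtain ⟨A, hA0, hA, rfl⟩ := root P hP hd
  have hm : (0 : ℝ) < Fintype.card ι := by exact_mod_cast Fintype.card_pos (α := ι)
  rw [inv_eq, Fs_eq, Fs_eq]
  have h3 := poi ι A hA0 (T ^ (-(1 / (Fintype.card ι : ℝ)))) (Real.rpow_pos_of_pos hT _)
  have e1 : 1 / (T ^ (-(1 / (Fintype.card ι : ℝ)))) ^ 2 = T ^ ((2 : ℝ) / Fintype.card ι) := by
    rw [← Real.rpow_natCast (T ^ (-(1 / (Fintype.card ι : ℝ)))) 2, ← Real.rpow_mul hT.le,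
      one_div, ← Real.rpow_neg hT.le]
    congr 1
    push_cast
    ring
  have e2 : (T ^ (-(1 / (Fintype.card ι : ℝ)))) ^ Fintype.card ι = T⁻¹ := by
    rw [← Real.rpow_natCast (T ^ (-(1 / (Fintype.card ι : ℝ)))), ← Real.rpow_mul hT.le,
      ← Real.rpow_neg_one]
    congr 1
    field_simp
  have e3 : (T ^ (-(1 / (Fintype.card ι : ℝ)))) ^ 2 = (1 / T) ^ ((2 : ℝ) / Fintype.card ι) := by
    rw [← Real.rpow_natCast (T ^ (-(1 / (Fintype.card ι : ℝ)))) 2, ← Real.rpow_mul hT.le,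
      one_div T, Real.inv_rpow hT.le, ← Real.rpow_neg hT.le]
    congr 1
    push_cast
    ring
  rw [e1, e2, e3, hA, inv_one, mul_one] at h3
  exact h3

lemma inv_det (P : Matrix ι ι ℝ) (hd : P.det = 1) : P⁻¹.det = 1 := by
  rw [Matrix.det_nonsing_inv, hd, Ring.inverse_one]

/-- the value at `1` is bounded by the integral -/
lemma Fs_one_le [Nonempty ι] (κ : ℝ) (hκ : 0 < κ) (hκ1 : κ ≤ 1) (P : Matrix ι ι ℝ)
    (hP : P.PosDef) (hd : P.det = 1) : (Fs P 1 - 1) / 4 ≤ AF κ P := by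
  have hP' := hP
  obtain ⟨A, hA0, hA, rfl⟩ := root P hP hd
  have hint := (gt_int κ hκ A hA0).1
  have h0 : AF κ (A.transpose * A) = ∫ T in Ioi (0 : ℝ), gt A T * T ^ κ := by
    unfold AF gt
    simp only [Fs_eq]
  have hnn : 0 ≤ᵐ[volume.restrict (Ioi (0 : ℝ))] fun T => gt A T * T ^ κ := by
    refine (ae_restrict_iff' measurableSet_Ioi).mpr (Eventually.of_forall fun T hT => ?_)
    exact mul_nonneg (gt_nonneg A hA0 T hT) (Real.rpow_nonneg (le_of_lt hT) _)
  have hsub : Ioc (1 / 2 : ℝ) 1 ⊆ Ioi 0 := fun T hT => by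
    have := hT.1
    show (0 : ℝ) < T
    linarith
  have h1 : ∫ T in Ioc (1 / 2 : ℝ) 1, gt A T * T ^ κ ≤ ∫ T in Ioi (0 : ℝ), gt A T * T ^ κ :=
    setIntegral_mono_set hint hnn hsub.eventuallyLE
  rw [h0]
  refine le_trans ?_ h1
  have h2 : ∫ T in Ioc (1 / 2 : ℝ) 1, (Fs (A.transpose * A) 1 - 1) / 2 =
      (Fs (A.transpose * A) 1 - 1) / 4 := by
    rw [setIntegral_const, Real.volume_real_Ioc_of_le (by norm_num), smul_eq_mul]
    ring
  rw [← h2]
  refine setIntegral_mono_on (integrableOn_const (by simp)) (hint.mono_set hsub)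
    measurableSet_Ioc ?_
  intro T hT
  have hT0 : 0 < T := hsub hT
  have h3 : Fs (A.transpose * A) 1 ≤ Fs (A.transpose * A) T := Fs_anti _ hP' hd hT0 hT.2
  have h4 : gt A T = Fs (A.transpose * A) T - 1 := by
    unfold gt
    rw [Fs_eq]
  have h5 : (1 : ℝ) / 2 ≤ T ^ κ := by
    have h6 : T ^ (1 : ℝ) ≤ T ^ κ := Real.rpow_le_rpow_of_exponent_ge hT0 hT.2 hκ1
    rw [Real.rpow_one] at h6
    exact hT.1.le.trans h6
  have h7 := one_le_Fs (A.transpose * A) hP' hd (T := 1) one_pos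
  rw [h4]
  nlinarith

/-- (PW) -/
theorem pf_PW : U_PW := by
  intro n hn
  obtain ⟨C, hC, hMS⟩ := pf_MSk n hn
  refine ⟨4 * (C + 6), by positivity, ?_⟩
  intro κ hκ hκ1 ι _ _ P Q hP hQ hdP hdQ hι N V hN hV
  have hne : Nonempty ι := by
    rw [← Fintype.card_pos_iff, hι]
    exact hn
  have hN0 : 0 < N := by linarith
  have aP := pf_LFk κ hκ hκ1 ι P hP hdP
  have aP' := pf_LFk κ hκ hκ1 ι P⁻¹ hP.inv (inv_det P hdP)
  have aQ := pf_LFk κ hκ hκ1 ι Q hQ hdQ
  have aQ' := pf_LFk κ hκ hκ1 ι Q⁻¹ hQ.inv (inv_det Q hdQ)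
  obtain ⟨⟨hI, hI2⟩, -⟩ := hMS κ hκ hκ1 ι P Q hP hQ hdP hdQ hι N 1 hN one_pos le_rfl
  simp only [mul_one, Real.one_rpow] at hI hI2
  set S : ℝ := AF κ P + AF κ P⁻¹ + AF κ Q + AF κ Q⁻¹ with hS
  have hS0 : 0 < S := by linarith
  have hk2 : (1 : ℝ) ≤ κ ^ (-2 : ℝ) := by
    rw [Real.rpow_neg hκ.le, Real.rpow_two]
    exact (one_le_inv₀ (by positivity)).mpr (by nlinarith)
  have hNk : N * N ^ κ = N ^ (1 + κ) := by
    rw [Real.rpow_add hN0, Real.rpow_one]
  have hNk1 : 1 ≤ N ^ κ := Real.one_le_rpow hN hκ.le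
  have hkk : (0 : ℝ) < κ ^ (-2 : ℝ) := by linarith
  have hB : ∫ T in Ioi (1 : ℝ), (Fs P (T / N) - 1) * Fs Q T * T ^ (κ / 2) ≤
      C * κ ^ (-2 : ℝ) * (N * N ^ κ) * S := by
    refine hI2.trans ?_
    rw [mul_assoc (C * κ ^ (-2 : ℝ))]
    refine mul_le_mul_of_nonneg_left ?_ (by positivity)
    rw [← hNk, hS]
    have h1 : N * (AF κ Q + AF κ Q⁻¹) ≤ N * N ^ κ * (AF κ Q + AF κ Q⁻¹) := by
      refine mul_le_mul_of_nonneg_right ?_ (by linarith)
      nlinarith
    nlinarith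
  -- the basic inequality
  have key : ∀ a : ℝ, 1 ≤ a → a * ((Fs P (2 * a / N) - 1) * Fs Q (2 * a)) ≤
      C * κ ^ (-2 : ℝ) * (N * N ^ κ) * S := by
    intro a ha
    refine le_trans ?_ hB
    have hnn : 0 ≤ᵐ[volume.restrict (Ioi (1 : ℝ))]
        fun T => (Fs P (T / N) - 1) * Fs Q T * T ^ (κ / 2) := by
      refine (ae_restrict_iff' measurableSet_Ioi).mpr (Eventually.of_forall fun T hT => ?_)
      have hT0 : 0 < T := lt_trans one_pos hT
      have h1 := one_le_Fs P hP hdP (T := T / N) (by positivity)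
      have h2 := one_le_Fs Q hQ hdQ (T := T) hT0
      exact mul_nonneg (mul_nonneg (by linarith) (by linarith)) (Real.rpow_nonneg hT0.le _)
    have hsub : Ioc a (2 * a) ⊆ Ioi 1 := fun T hT => lt_of_le_of_lt ha hT.1
    refine le_trans ?_ (setIntegral_mono_set hI hnn hsub.eventuallyLE)
    have h2 : ∫ T in Ioc a (2 * a), ((Fs P (2 * a / N) - 1) * Fs Q (2 * a)) =
        a * ((Fs P (2 * a / N) - 1) * Fs Q (2 * a)) := by
      rw [setIntegral_const, Real.volume_real_Ioc_of_le (by linarith), smul_eq_mul]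
      ring
    rw [← h2]
    refine setIntegral_mono_on (integrableOn_const (by simp)) (hI.mono_set hsub)
      measurableSet_Ioc ?_
    intro T hT
    have hT1 : 1 < T := hsub hT
    have hT0 : 0 < T := by linarith
    have h3 : Fs P (2 * a / N) ≤ Fs P (T / N) :=
      Fs_anti P hP hdP (by positivity) (div_le_div_of_nonneg_right hT.2 hN0.le)
    have h4 : Fs Q (2 * a) ≤ Fs Q T := Fs_anti Q hQ hdQ hT0 hT.2
    have h5 := one_le_Fs P hP hdP (T := 2 * a / N) (by positivity)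
    have h6 := one_le_Fs Q hQ hdQ (T := 2 * a) (by positivity)
    have h7 : (1 : ℝ) ≤ T ^ (κ / 2) := Real.one_le_rpow hT1.le (by positivity)
    have h8 : (Fs P (2 * a / N) - 1) * Fs Q (2 * a) ≤ (Fs P (T / N) - 1) * Fs Q T :=
      mul_le_mul (by linarith) h4 (by linarith) (by linarith)
    have h9 : 0 ≤ (Fs P (T / N) - 1) * Fs Q T := mul_nonneg (by linarith) (by linarith)
    nlinarith
  have hX : 0 ≤ κ ^ (-2 : ℝ) * N ^ κ * S := by positivity
  rcases le_or_gt V (N / 2) with hc | hc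
  · have ha : 1 ≤ N / (2 * V) := by
      rw [le_div_iff₀ (by positivity)]
      linarith
    have h1 := key _ ha
    have e1 : 2 * (N / (2 * V)) = N / V := by field_simp
    have e2 : 2 * (N / (2 * V)) / N = 1 / V := by field_simp
    rw [e2, e1] at h1
    have h2 : (Fs P (1 / V) - 1) * Fs Q (N / V) ≤
        2 * V / N * (C * κ ^ (-2 : ℝ) * (N * N ^ κ) * S) := by
      rw [← div_le_iff₀' (by positivity)]
      refine le_trans (le_of_eq ?_) h1
      field_simp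
    refine h2.trans ?_
    have e3 : 2 * V / N * (C * κ ^ (-2 : ℝ) * (N * N ^ κ) * S) =
        2 * C * V * (κ ^ (-2 : ℝ) * N ^ κ * S) := by
      field_simp
    have e4 : 4 * (C + 6) * κ ^ (-2 : ℝ) * (N ^ κ * (V + V ^ 2 / N)) * S =
        4 * (C + 6) * (V + V ^ 2 / N) * (κ ^ (-2 : ℝ) * N ^ κ * S) := by ring
    rw [e3, e4]
    refine mul_le_mul_of_nonneg_right ?_ hX
    have h3 : 0 ≤ V ^ 2 / N := by positivity
    have h4 : 0 ≤ C * V := by positivity
    have h5 : 0 ≤ C * (V ^ 2 / N) := by positivity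
    have h6 : 4 * (C + 6) * (V + V ^ 2 / N) =
        4 * (C * V) + 24 * V + 4 * (C * (V ^ 2 / N)) + 24 * (V ^ 2 / N) := by ring
    rw [h6]
    linarith only [h3, h4, h5, hV]
  · have h1 := key 1 le_rfl
    rw [mul_one, one_mul] at h1
    have f1 : Fs P (1 / V) ≤ 2 * V / N * Fs P (2 / N) := by
      rw [Fs_fe P hP hdP (T := 1 / V) (by positivity), Fs_fe P hP hdP (T := 2 / N) (by positivity)]
      have h2 : Fs P⁻¹ (1 / (1 / V)) ≤ Fs P⁻¹ (1 / (2 / N)) := by
        refine Fs_anti _ hP.inv (inv_det P hdP) (by positivity) ?_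
        rw [one_div_div, one_div_one_div]
        exact hc.le
      have e1 : 2 * V / N * ((2 / N)⁻¹ * Fs P⁻¹ (1 / (2 / N))) = (1 / V)⁻¹ * Fs P⁻¹ (1 / (2 / N)) := by
        field_simp
      rw [e1]
      exact mul_le_mul_of_nonneg_left h2 (by positivity)
    have f2 : Fs Q (N / V) ≤ 2 * V / N * Fs Q 2 := by
      rw [Fs_fe Q hQ hdQ (T := N / V) (by positivity), Fs_fe Q hQ hdQ (T := 2) (by positivity)]
      have h2 : Fs Q⁻¹ (1 / (N / V)) ≤ Fs Q⁻¹ (1 / 2) := by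
        refine Fs_anti _ hQ.inv (inv_det Q hdQ) (by positivity) ?_
        rw [one_div_div, div_le_div_iff₀ two_pos hN0]
        linarith
      have e1 : 2 * V / N * (2⁻¹ * Fs Q⁻¹ (1 / 2)) = (N / V)⁻¹ * Fs Q⁻¹ (1 / 2) := by
        field_simp
      rw [e1]
      exact mul_le_mul_of_nonneg_left h2 (by positivity)
    have g1 := one_le_Fs P hP hdP (T := 1 / V) (by positivity)
    have g2 := one_le_Fs Q hQ hdQ (T := N / V) (by positivity)
    have g3 := one_le_Fs P hP hdP (T := 2 / N) (by positivity)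
    have g4 := one_le_Fs Q hQ hdQ (T := 2) (by positivity)
    have hq : Fs Q 2 ≤ 6 * S := by
      have h2 := Fs_anti Q hQ hdQ (T := 1) (T' := 2) one_pos one_le_two
      have h3 := Fs_one_le κ hκ hκ1 Q hQ hdQ
      linarith
    have hq2 : Fs Q 2 ≤ 6 * (κ ^ (-2 : ℝ) * (N * N ^ κ) * S) := by
      have h2 : 1 ≤ κ ^ (-2 : ℝ) * (N * N ^ κ) :=
        one_le_mul_of_one_le_of_one_le hk2 (one_le_mul_of_one_le_of_one_le hN hNk1)
      have h3 := le_mul_of_one_le_left hS0.le h2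
      linarith only [hq, h3]
    have h3 : (Fs P (1 / V) - 1) * Fs Q (N / V) ≤
        (2 * V / N) ^ 2 * ((C + 6) * (κ ^ (-2 : ℝ) * (N * N ^ κ) * S)) := by
      have hw : 1 ≤ 2 * V / N := by
        rw [le_div_iff₀ hN0]
        linarith
      calc (Fs P (1 / V) - 1) * Fs Q (N / V)
          ≤ (2 * V / N * Fs P (2 / N)) * (2 * V / N * Fs Q 2) :=
            mul_le_mul ((sub_le_self _ zero_le_one).trans f1) f2 (zero_le_one.trans g2)
              (mul_nonneg (by positivity) (zero_le_one.trans g3))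
        _ = (2 * V / N) ^ 2 * ((Fs P (2 / N) - 1) * Fs Q 2 + Fs Q 2) := by ring
        _ ≤ _ := by
            refine mul_le_mul_of_nonneg_left ?_ (by positivity)
            refine (add_le_add h1 hq2).trans (le_of_eq ?_)
            ring
    refine h3.trans ?_
    have e3 : (2 * V / N) ^ 2 * ((C + 6) * (κ ^ (-2 : ℝ) * (N * N ^ κ) * S)) =
        4 * (C + 6) * (V ^ 2 / N) * (κ ^ (-2 : ℝ) * N ^ κ * S) := by
      field_simp
      ring
    have e4 : 4 * (C + 6) * κ ^ (-2 : ℝ) * (N ^ κ * (V + V ^ 2 / N)) * S =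
        4 * (C + 6) * (V + V ^ 2 / N) * (κ ^ (-2 : ℝ) * N ^ κ * S) := by ring
    rw [e3, e4]
    refine mul_le_mul_of_nonneg_right ?_ hX
    refine mul_le_mul_of_nonneg_left ?_ (by positivity)
    linarith only [hV]

end Pool.Agent.H59.LC
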